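import Mathlib
import Pool.Graph.R_pool_sql_team_seeded_b0a926ef.R71.Main

set_option autoImplicit false
set_option linter.unusedSimpArgs false

namespace KS6_98.Folk

open Pool.Agent.R71 Pool.Agent.R71.Count

variable {n : ℕ}

/-- four pairwise adjacent vertices -/
def IsK4 (G : SimpleGraph (Fin n)) (x y u w : Fin n) : Prop :=
  G.Adj x y ∧ G.Adj x u ∧ G.Adj x w ∧ G.Adj y u ∧ G.Adj y w ∧ G.Adj u w

theorem IsK4.swap {G : SimpleGraph (Fin n)} {x y u w : Fin n} (h : IsK4 G x y u w) :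
    IsK4 G y x u w := ⟨h.1.symm, h.2.2.2.1, h.2.2.2.2.1, h.2.1, h.2.2.1, h.2.2.2.2.2⟩

theorem IsK4.swap' {G : SimpleGraph (Fin n)} {x y u w : Fin n} (h : IsK4 G x y u w) :
    IsK4 G x y w u := ⟨h.1, h.2.2.1, h.2.1, h.2.2.2.2.1, h.2.2.2.1, h.2.2.2.2.2.symm⟩

theorem IsK4.rot {G : SimpleGraph (Fin n)} {x y u w : Fin n} (h : IsK4 G x y u w) :
    IsK4 G y u x w := ⟨h.2.2.2.1, h.1.symm, h.2.2.2.2.1, h.2.1.symm, h.2.2.2.2.2, h.2.2.1⟩

theorem IsK4.mid {G : SimpleGraph (Fin n)} {x y u w : Fin n} (h : IsK4 G x y u w) :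
    IsK4 G x u y w := ⟨h.2.1, h.1, h.2.2.1, h.2.2.2.1.symm, h.2.2.2.2.2, h.2.2.2.2.1⟩

/-- delete the edges that lie in a `K₄` -/
def clean (G : SimpleGraph (Fin n)) : SimpleGraph (Fin n) where
  Adj x y := G.Adj x y ∧ ¬ ∃ u w, IsK4 G x y u w
  symm := ⟨fun x y h => ⟨h.1.symm, fun ⟨u, w, hu⟩ => h.2 ⟨u, w, hu.swap⟩⟩⟩
  loopless := ⟨fun x h => G.loopless.irrefl x h.1⟩

theorem clean_cliqueFree (G : SimpleGraph (Fin n)) : (clean G).CliqueFree 4 := by
  rw [SimpleGraph.cliqueFree_iff]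
  refine ⟨fun f => ?_⟩
  have h : ∀ i j : Fin 4, i ≠ j → (clean G).Adj (f i) (f j) := fun i j hij =>
    f.toHom.map_adj hij
  refine (h 0 1 (by decide)).2 ⟨f 2, f 3, (h 0 1 (by decide)).1, (h 0 2 (by decide)).1,
    (h 0 3 (by decide)).1, (h 1 2 (by decide)).1, (h 1 3 (by decide)).1, (h 2 3 (by decide)).1⟩

/-- the other common neighbours of an edge of a `K₄` -/
theorem ext4 {G : SimpleGraph (Fin n)}
    (hfree : ∀ f : Fin 5 → Fin n, Function.Injective f →
      ¬ ∀ j, G.Adj (f (L5 j).1) (f (L5 j).2)) {x y u w e : Fin n} (h : IsK4 G x y u w)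
    (hx : G.Adj x e) (hy : G.Adj y e) : e = u ∨ e = w := by
  by_contra hcon
  push Not at hcon
  obtain ⟨h1, h2, h3, h4, h5, h6⟩ := h
  refine hfree ![x, y, u, e, w] ?_ ?_
  · have n1 := h1.ne
    have n2 := h2.ne
    have n3 := h3.ne
    have n4 := h4.ne
    have n5 := h5.ne
    have n6 := h6.ne
    have n7 := hx.ne
    have n8 := hy.ne
    have n9 := hcon.1
    have n10 := hcon.2
    have key : ∀ i j : Fin 5, i < j → (![x, y, u, e, w] : Fin 5 → Fin n) i ≠ ![x, y, u, e, w] j := by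
      intro i j hij
      fin_cases i <;> fin_cases j <;>
        first
        | exact absurd hij (by decide)
        | exact n1 | exact n2 | exact n3 | exact n4 | exact n5 | exact n6 | exact n7 | exact n8
        | exact n9.symm | exact n10
    intro i j hij
    rcases lt_trichotomy i j with h | h | h
    · exact absurd hij (key i j h)
    · exact h
    · exact absurd hij.symm (key j i h)
  · intro j
    fin_cases j
    · exact h2
    · exact hx
    · exact h3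
    · exact h4
    · exact hy
    · exact h5
    · exact h6

/-- the pair `x, y` is extreme in the four vertices -/
def cond (x y u w : Fin n) : Prop :=
  (x < u ∧ y < u ∧ x < w ∧ y < w) ∨ (u < x ∧ u < y ∧ w < x ∧ w < y)

theorem red_iff {G : SimpleGraph (Fin n)}
    (hfree : ∀ f : Fin 5 → Fin n, Function.Injective f →
      ¬ ∀ j, G.Adj (f (L5 j).1) (f (L5 j).2)) {x y u w : Fin n} (h : IsK4 G x y u w) :
    (∃ u w, IsK4 G x y u w ∧ cond x y u w) ↔ cond x y u w := by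
  constructor
  · rintro ⟨u', w', h', hc⟩
    have h1 := ext4 hfree h h'.2.1 h'.2.2.2.1
    have h2 := ext4 hfree h h'.2.2.1 h'.2.2.2.2.1
    have h3 := h'.2.2.2.2.2.ne
    rcases h1 with rfl | rfl <;> rcases h2 with rfl | rfl
    · exact absurd rfl h3
    · exact hc
    · rcases hc with hc | hc
      · exact Or.inl ⟨hc.2.2.1, hc.2.2.2, hc.1, hc.2.1⟩
      · exact Or.inr ⟨hc.2.2.1, hc.2.2.2, hc.1, hc.2.1⟩
    · exact absurd rfl h3
  · intro hc
    exact ⟨u, w, h, hc⟩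

theorem ord4 (a b c d : ℕ) (n1 : a ≠ b) (n2 : a ≠ c) (n3 : a ≠ d) (n4 : b ≠ c) (n5 : b ≠ d)
    (n6 : c ≠ d)
    (e1 : ((a < c ∧ b < c ∧ a < d ∧ b < d) ∨ (c < a ∧ c < b ∧ d < a ∧ d < b)) ↔
      ((b < a ∧ c < a ∧ b < d ∧ c < d) ∨ (a < b ∧ a < c ∧ d < b ∧ d < c)))
    (e2 : ((b < a ∧ c < a ∧ b < d ∧ c < d) ∨ (a < b ∧ a < c ∧ d < b ∧ d < c)) ↔
      ((a < b ∧ c < b ∧ a < d ∧ c < d) ∨ (b < a ∧ b < c ∧ d < a ∧ d < c))) : False := by
  rcases lt_or_gt_of_ne n1 with a1 | a1 <;> rcases lt_or_gt_of_ne n2 with a2 | a2 <;>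
  rcases lt_or_gt_of_ne n3 with a3 | a3 <;> rcases lt_or_gt_of_ne n4 with a4 | a4 <;>
  rcases lt_or_gt_of_ne n5 with a5 | a5 <;> rcases lt_or_gt_of_ne n6 with a6 | a6 <;>
  simp only [a1, a2, a3, a4, a5, a6, not_lt_of_gt a1, not_lt_of_gt a2, not_lt_of_gt a3,
    not_lt_of_gt a4, not_lt_of_gt a5, not_lt_of_gt a6, true_and, and_true, false_and, and_false,
    or_false, false_or, or_true, true_or, iff_true, iff_false, true_iff, false_iff, not_true_eq_false, not_false_eq_true] at e1 e2 <;>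
  omega

/-- cleaning preserves the arrow property -/
theorem clean_arrow {G : SimpleGraph (Fin n)}
    (hfree : ∀ f : Fin 5 → Fin n, Function.Injective f →
      ¬ ∀ j, G.Adj (f (L5 j).1) (f (L5 j).2))
    (harr : ∀ c : Fin n → Fin n → Bool, (∀ x y, G.Adj x y → c x y = c y x) →
      ∃ x y z, G.Adj x y ∧ G.Adj y z ∧ G.Adj x z ∧ c x y = c y z ∧ c y z = c x z)
    (c : Fin n → Fin n → Bool) (hc : ∀ x y, (clean G).Adj x y → c x y = c y x) :
    ∃ x y z, (clean G).Adj x y ∧ (clean G).Adj y z ∧ (clean G).Adj x z ∧ c x y = c y z ∧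
      c y z = c x z := by
  classical
  let red : Fin n → Fin n → Prop := fun x y => ∃ u w, IsK4 G x y u w ∧ cond x y u w
  let inK : Fin n → Fin n → Prop := fun x y => ∃ u w, IsK4 G x y u w
  have hinK : ∀ x y, inK x y ↔ inK y x := fun x y =>
    ⟨fun ⟨u, w, h⟩ => ⟨u, w, h.swap⟩, fun ⟨u, w, h⟩ => ⟨u, w, h.swap⟩⟩
  have hcondsym : ∀ x y u w : Fin n, cond x y u w → cond y x u w := by
    intro x y u w h
    rcases h with h | h
    · exact Or.inl ⟨h.2.1, h.1, h.2.2.2, h.2.2.1⟩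
    · exact Or.inr ⟨h.2.1, h.1, h.2.2.2, h.2.2.1⟩
  have hred : ∀ x y, red x y ↔ red y x := fun x y =>
    ⟨fun ⟨u, w, h, h'⟩ => ⟨u, w, h.swap, hcondsym _ _ _ _ h'⟩,
      fun ⟨u, w, h, h'⟩ => ⟨u, w, h.swap, hcondsym _ _ _ _ h'⟩⟩
  let c' : Fin n → Fin n → Bool := fun x y => if inK x y then decide (red x y) else c x y
  have hc'K : ∀ x y, inK x y → c' x y = decide (red x y) := fun x y h => if_pos h
  have hc'n : ∀ x y, ¬ inK x y → c' x y = c x y := fun x y h => if_neg h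
  obtain ⟨x, y, z, hxy, hyz, hxz, e1, e2⟩ := harr c' (by
    intro x y hxy
    by_cases h : inK x y
    · rw [hc'K x y h, hc'K y x ((hinK x y).1 h)]
      exact decide_eq_decide.2 (hred x y)
    · rw [hc'n x y h, hc'n y x (fun h' => h ((hinK x y).2 h'))]
      exact hc x y ⟨hxy, h⟩)
  -- a triangle inside a `K₄` is not monochromatic
  have htri : ∀ t, ¬ IsK4 G x y z t := by
    intro t ht
    have k1 : inK x y := ⟨z, t, ht⟩
    have k2 : inK y z := ⟨x, t, ht.rot⟩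
    have k3 : inK z x := ⟨y, t, ht.rot.rot⟩
    have k3' : inK x z := (hinK z x).1 k3
    rw [hc'K x y k1, hc'K y z k2] at e1
    rw [hc'K y z k2, hc'K x z k3'] at e2
    rw [decide_eq_decide] at e1 e2
    have r1 : red x y ↔ cond x y z t := red_iff hfree ht
    have r2 : red y z ↔ cond y z x t := red_iff hfree ht.rot
    have r3 : red x z ↔ cond x z y t := red_iff hfree ht.rot.rot.swap
    rw [r1, r2] at e1
    rw [r2, r3] at e2
    obtain ⟨h1, h2, h3, h4, h5, h6⟩ := ht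
    have n1 := Fin.val_ne_of_ne h1.ne
    have n2 := Fin.val_ne_of_ne h2.ne
    have n3 := Fin.val_ne_of_ne h3.ne
    have n4 := Fin.val_ne_of_ne h4.ne
    have n5 := Fin.val_ne_of_ne h5.ne
    have n6 := Fin.val_ne_of_ne h6.ne
    simp only [cond, Fin.lt_def] at e1 e2
    exact ord4 x y z t n1 n2 n3 n4 n5 n6 e1 e2
  by_cases k1 : inK x y
  · obtain ⟨u, w, h⟩ := k1
    rcases ext4 hfree h hxz hyz with rfl | rfl
    · exact absurd h (htri w)
    · exact absurd h.swap' (htri u)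
  by_cases k2 : inK y z
  · obtain ⟨u, w, h⟩ := k2
    rcases ext4 hfree h hxy.symm hxz.symm with rfl | rfl
    · exact absurd h.rot.rot (htri w)
    · exact absurd h.swap'.rot.rot (htri u)
  by_cases k3 : inK x z
  · obtain ⟨u, w, h⟩ := k3
    rcases ext4 hfree h hxy hyz.symm with rfl | rfl
    · exact absurd h.mid (htri w)
    · exact absurd h.swap'.mid (htri u)
  refine ⟨x, y, z, ⟨hxy, k1⟩, ⟨hyz, k2⟩, ⟨hxz, k3⟩, ?_, ?_⟩
  · rw [← hc'n x y k1, ← hc'n y z k2]; exact e1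
  · rw [← hc'n y z k2, ← hc'n x z k3]; exact e2

end KS6_98.Folk
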