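import Mathlib
import Pool.Graph.R_pool_sql_team_seeded_b0a926ef.R71.Main

set_option autoImplicit false

namespace KS6_98.Folk

open Pool.Agent.R71 Pool.Agent.R71.Main

set_option maxHeartbeats 1000000 in
/-- the inequalities, for given small parameter -/
theorem core (D b : ℕ) (ε : ℝ) (hε0 : 0 < ε) (hε1 : ε ≤ 1) (hε2 : ε ≤ 1 / 3 ^ D)
    (hε3 : ε ≤ 1 / (10 * ((9 / 16) * (54 / 5) ^ D)))
    (hε4 : ε ≤ 1 / (10 * (6 * (104976 / 5) ^ D * (100 / (63 / 5) ^ D) ^ 3)))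
    (hb : 100 / ((63 / 5) ^ D * ε ^ 2) + 1 ≤ (b : ℝ))
    (hD : (25155 / (63 / 5) ^ 4 : ℝ) ^ D < 1 / 4000000000) : ∃ (P : ℝ), 0 ≤ P ∧ P * 3 ^ D ≤ 1 ∧
    0 < P ^ 3 * ((b : ℝ) ^ 3 * 126 ^ D) / 48 -
      (9 / 16) * (2 ^ D * (b : ℝ)) ^ 2 * (P * 3 ^ D) ^ 3 - (33 / 20) * (P * ((b : ℝ) ^ 2 * 10 ^ D)) -
      2 * (P ^ 9 * ((b : ℝ) ^ 6 * 251550 ^ D)) - 6 * (2 ^ D * (b : ℝ)) ^ 5 * (P * 3 ^ D) ^ 8 := by
  set C1 : ℝ := (9 / 16) * (54 / 5) ^ D with hC1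
  set C2 : ℝ := 6 * (104976 / 5) ^ D * (100 / (63 / 5) ^ D) ^ 3 with hC2
  have hC1p : 0 < C1 := by positivity
  have hC2p : 0 < C2 := by positivity
  have hb0 : (0 : ℝ) < b := by
    have : 0 < 100 / ((63 / 5) ^ D * ε ^ 2) + 1 := by positivity
    linarith
  set P : ℝ := Real.sqrt (100 / (b * (63 / 5) ^ D)) with hP
  have hPpos : 0 < P := Real.sqrt_pos.2 (by positivity)
  have hPsq : P ^ 2 = 100 / (b * (63 / 5) ^ D) := Real.sq_sqrt (by positivity)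
  have hPε : P ≤ ε := by
    refine Real.sqrt_le_iff.2 ⟨hε0.le, ?_⟩
    rw [div_le_iff₀ (by positivity)]
    have h1 : 100 / ((63 / 5) ^ D * ε ^ 2) ≤ b := by linarith
    rw [div_le_iff₀ (by positivity)] at h1
    nlinarith
  have hbP : (b : ℝ) * P ^ 2 = 100 / (63 / 5) ^ D := by
    rw [hPsq]; field_simp
  refine ⟨P, hPpos.le, ?_, ?_⟩
  · have h1 : P ≤ 1 / 3 ^ D := hPε.trans hε2
    rw [le_div_iff₀ (by positivity)] at h1
    exact h1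
  · set E : ℝ := P * ((b : ℝ) ^ 2 * 10 ^ D) with hE
    have hEpos : 0 < E := by positivity
    -- the four terms in units of `E`
    have f1 : P ^ 3 * ((b : ℝ) ^ 3 * 126 ^ D) = 100 * E := by
      have e1 : (126 : ℝ) ^ D = 10 ^ D * (63 / 5) ^ D := by rw [← mul_pow]; norm_num
      calc P ^ 3 * ((b : ℝ) ^ 3 * 126 ^ D) = E * (b * P ^ 2) * (63 / 5) ^ D := by
            rw [e1, hE]; ring
        _ = 100 * E := by rw [hbP]; field_simp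
    have f2 : (9 / 16) * (2 ^ D * (b : ℝ)) ^ 2 * (P * 3 ^ D) ^ 3 = C1 * P ^ 2 * E := by
      have e1 : ((2 : ℝ) ^ D) ^ 2 * (3 ^ D) ^ 3 = 10 ^ D * (54 / 5) ^ D := by
        rw [← pow_mul, ← pow_mul, mul_comm D 2, mul_comm D 3, pow_mul, pow_mul, ← mul_pow,
          ← mul_pow]
        norm_num
      calc (9 / 16) * (2 ^ D * (b : ℝ)) ^ 2 * (P * 3 ^ D) ^ 3 =
            (9 / 16) * (((2 : ℝ) ^ D) ^ 2 * (3 ^ D) ^ 3) * (b : ℝ) ^ 2 * P ^ 3 := by ring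
        _ = C1 * P ^ 2 * E := by rw [e1, hC1, hE]; ring
    have f3 : P ^ 9 * ((b : ℝ) ^ 6 * 251550 ^ D) =
        100000000 * (25155 / (63 / 5) ^ 4) ^ D * E := by
      have e1 : (251550 : ℝ) ^ D = 10 ^ D * 25155 ^ D := by rw [← mul_pow]; norm_num
      calc P ^ 9 * ((b : ℝ) ^ 6 * 251550 ^ D) = E * (b * P ^ 2) ^ 4 * 25155 ^ D := by
            rw [e1, hE]; ring
        _ = 100000000 * (25155 / (63 / 5) ^ 4) ^ D * E := by
            have e2 : (25155 / (63 / 5) ^ 4 : ℝ) ^ D = 25155 ^ D / ((63 / 5) ^ D) ^ 4 := by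
              rw [div_pow, ← pow_mul, ← pow_mul, mul_comm 4 D]
            rw [hbP, e2]
            have e3 : ((63 / 5 : ℝ)) ^ D ≠ 0 := by positivity
            generalize ((63 / 5 : ℝ)) ^ D = y at e3
            field_simp
            norm_num
    have f4 : 6 * (2 ^ D * (b : ℝ)) ^ 5 * (P * 3 ^ D) ^ 8 = C2 * P * E := by
      have e1 : ((2 : ℝ) ^ D) ^ 5 * (3 ^ D) ^ 8 = 10 ^ D * (104976 / 5) ^ D := by
        rw [← pow_mul, ← pow_mul, mul_comm D 5, mul_comm D 8, pow_mul, pow_mul, ← mul_pow,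
          ← mul_pow]
        norm_num
      calc 6 * (2 ^ D * (b : ℝ)) ^ 5 * (P * 3 ^ D) ^ 8 =
            6 * (((2 : ℝ) ^ D) ^ 5 * (3 ^ D) ^ 8) * (b : ℝ) ^ 5 * P ^ 8 := by ring
        _ = 6 * (10 ^ D * (104976 / 5) ^ D) * (b ^ 2 * (b * P ^ 2) ^ 3 * (P * P)) := by
            rw [e1]; ring
        _ = C2 * P * E := by rw [hbP, hC2, hE]; ring
    rw [f1, f2, f3, f4]
    have g1 : C1 * P ^ 2 ≤ 1 / 10 := by
      have h1 : P ^ 2 ≤ ε := by nlinarith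
      have h2 : C1 * ε ≤ 1 / 10 := by
        calc C1 * ε ≤ C1 * (1 / (10 * C1)) := mul_le_mul_of_nonneg_left hε3 hC1p.le
          _ = 1 / 10 := by field_simp
      nlinarith
    have g2 : C2 * P ≤ 1 / 10 := by
      calc C2 * P ≤ C2 * (1 / (10 * C2)) :=
            mul_le_mul_of_nonneg_left (hPε.trans hε4) hC2p.le
        _ = 1 / 10 := by field_simp
    have g3 : 100000000 * (25155 / (63 / 5) ^ 4 : ℝ) ^ D ≤ 1 / 40 := by
      linarith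
    have k1 := mul_le_mul_of_nonneg_right g1 hEpos.le
    have k2 := mul_le_mul_of_nonneg_right g2 hEpos.le
    have k3 := mul_le_mul_of_nonneg_right g3 hEpos.le
    generalize C1 * P ^ 2 * E = a1 at k1 ⊢
    generalize C2 * P * E = a2 at k2 ⊢
    generalize 100000000 * (25155 / (63 / 5) ^ 4 : ℝ) ^ D * E = a3 at k3 ⊢
    linarith


theorem lin2 (X Y : ℝ) (h : X ≤ Y) (h1 : 1 ≤ Y) : X ≤ 10 ^ 8 * Y := by
  norm_num
  linarith

theorem lin3 (X Y : ℝ) (h : X ≤ Y) (h1 : 1 ≤ Y) : 10 * (9 / 16 * X) ≤ 10 ^ 8 * Y := by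
  norm_num
  linarith

theorem lin4 (X Y : ℝ) (h : X ≤ Y) (h1 : 1 ≤ Y) : 10 * (6 * 10 ^ 6 * X) ≤ 10 ^ 8 * Y := by
  norm_num
  linarith

theorem lin5 (X Y : ℝ) (h : X ≤ Y) (h1 : 1 ≤ Y) : 10 ^ 18 * X + 1 ≤ Y * 10 ^ 19 := by
  norm_num
  linarith

theorem eps2 (D : ℕ) : 1 / (10 ^ 8 * 11 ^ D : ℝ) ≤ 1 / 3 ^ D := by
  apply one_div_le_one_div_of_le (by positivity)
  exact lin2 _ _ (pow_le_pow_left₀ (by norm_num) (by norm_num) D) (one_le_pow₀ (by norm_num))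

theorem eps1 (D : ℕ) : 1 / (10 ^ 8 * 11 ^ D : ℝ) ≤ 1 := by
  have := eps2 D
  refine this.trans ?_
  rw [div_le_one (by positivity)]
  exact one_le_pow₀ (by norm_num)

theorem eps3 (D : ℕ) : 1 / (10 ^ 8 * 11 ^ D : ℝ) ≤ 1 / (10 * ((9 / 16) * (54 / 5) ^ D)) := by
  apply one_div_le_one_div_of_le (by positivity)
  exact lin3 _ _ (pow_le_pow_left₀ (by norm_num) (by norm_num) D) (one_le_pow₀ (by norm_num))

theorem eps4 (D : ℕ) : 1 / (10 ^ 8 * 11 ^ D : ℝ) ≤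
    1 / (10 * (6 * (104976 / 5) ^ D * (100 / (63 / 5) ^ D) ^ 3)) := by
  apply one_div_le_one_div_of_le (by positivity)
  have e1 : (6 * (104976 / 5) ^ D * (100 / (63 / 5) ^ D) ^ 3 : ℝ) =
      6 * 10 ^ 6 * ((104976 / 5) / (63 / 5) ^ 3 : ℝ) ^ D := by
    rw [div_pow (100 : ℝ), div_pow (104976 / 5 : ℝ), ← pow_mul, ← pow_mul, mul_comm D 3]
    ring
  rw [e1]
  exact lin4 _ _ (pow_le_pow_left₀ (by norm_num) (by norm_num) D) (one_le_pow₀ (by norm_num))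

theorem epsb (D : ℕ) : 100 / ((63 / 5) ^ D * (1 / (10 ^ 8 * 11 ^ D : ℝ)) ^ 2) + 1 ≤
    ((10 ^ D * 10 ^ 19 : ℕ) : ℝ) := by
  have e1 : 100 / ((63 / 5) ^ D * (1 / (10 ^ 8 * 11 ^ D : ℝ)) ^ 2) =
      10 ^ 18 * (121 / (63 / 5) : ℝ) ^ D := by
    rw [div_pow (121 : ℝ)]
    have h1 : (121 : ℝ) ^ D = 11 ^ D * 11 ^ D := by rw [← mul_pow]; norm_num
    rw [h1]
    field_simp
    norm_num
  have e4 : ((10 ^ D * 10 ^ 19 : ℕ) : ℝ) = 10 ^ D * 10 ^ 19 := by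
    rw [Nat.cast_mul, Nat.cast_pow, Nat.cast_pow, Nat.cast_ofNat]
  rw [e1, e4]
  have e2 : (121 / (63 / 5) : ℝ) ^ D ≤ 10 ^ D := pow_le_pow_left₀ (by norm_num) (by norm_num) D
  have e3 : (1 : ℝ) ≤ 10 ^ D := one_le_pow₀ (by norm_num)
  exact lin5 _ _ e2 e3

theorem pow_small : (25155 / (63 / 5) ^ 4 : ℝ) ^ 11700 < 1 / 4000000000 := by
  have h1 : (25155 / (63 / 5) ^ 4 : ℝ) ≤ Real.exp (-(23 / 11700)) := by
    have := Real.add_one_le_exp (-(23 / 11700 : ℝ))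
    refine le_trans ?_ this
    norm_num
  have h2 : (25155 / (63 / 5) ^ 4 : ℝ) ^ 11700 ≤ Real.exp (-(23 / 11700)) ^ 11700 :=
    pow_le_pow_left₀ (by norm_num) h1 11700
  have h3 : Real.exp (-(23 / 11700)) ^ 11700 = (Real.exp 1 ^ 23)⁻¹ := by
    rw [← Real.exp_nat_mul, ← Real.exp_nat_mul, ← Real.exp_neg]
    congr 1
    push_cast
    norm_num
  have h4 : (2.7 : ℝ) ^ 23 ≤ Real.exp 1 ^ 23 :=
    pow_le_pow_left₀ (by norm_num) (by have := Real.exp_one_gt_d9; linarith) 23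
  have h5 : (4000000000 : ℝ) < Real.exp 1 ^ 23 := lt_of_lt_of_le (by norm_num) h4
  refine lt_of_le_of_lt h2 ?_
  rw [h3, one_div]
  exact inv_strictAnti₀ (by norm_num) h5

end KS6_98.Folk
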