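import Mathlib
import Pool.Agent.KS6_98.Folk.Params
import Pool.Agent.KS6_98.Folk.Clean

set_option autoImplicit false

namespace KS6_98.Folk

open Pool.Agent.R71 Pool.Agent.R71.Count

/-- the graph for given parameters -/
theorem graph_of_params (D b : ℕ) (P : ℝ) (hP : 0 ≤ P) (hP1 : P * 3 ^ D ≤ 1)
    (hineq : 0 < P ^ 3 * ((b : ℝ) ^ 3 * 126 ^ D) / 48 -
      (9 / 16) * (2 ^ D * (b : ℝ)) ^ 2 * (P * 3 ^ D) ^ 3 - (33 / 20) * (P * ((b : ℝ) ^ 2 * 10 ^ D)) -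
      2 * (P ^ 9 * ((b : ℝ) ^ 6 * 251550 ^ D)) - 6 * (2 ^ D * (b : ℝ)) ^ 5 * (P * 3 ^ D) ^ 8)
    (n : ℕ) (hn : n = 2 ^ D * b) :
    ∃ G : SimpleGraph (Fin n), G.CliqueFree 4 ∧
      (∀ c : Fin n → Fin n → Bool, (∀ x y, G.Adj x y → c x y = c y x) →
      ∃ x y z, G.Adj x y ∧ G.Adj y z ∧ G.Adj x z ∧ c x y = c y z ∧ c y z = c x z) ∧
    ∀ f : Fin 5 → Fin n, Function.Injective f →
      ¬ ∀ j, G.Adj (f (L5 j).1) (f (L5 j).2) := by
  obtain ⟨ω, hω⟩ := Main.exists_outcome D b P hP hP1 hineq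
  have hcard : Fintype.card ((Fin D → Bool) × Fin b) = n := by
    rw [hn]; simp
  have e : ((Fin D → Bool) × Fin b) ≃ Fin n := Fintype.equivFinOfCardEq hcard
  have harr : ∀ c : Fin n → Fin n → Bool, (∀ x y, ((G' ω).comap e.symm).Adj x y → c x y = c y x) →
      ∃ x y z, ((G' ω).comap e.symm).Adj x y ∧ ((G' ω).comap e.symm).Adj y z ∧
        ((G' ω).comap e.symm).Adj x z ∧ c x y = c y z ∧ c y z = c x z := by
    intro c hc
    obtain ⟨x, y, z, h1, h2, h3, h4, h5⟩ := Main.arrow_of_outcome P _ ω hω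
      (fun x y => c (e x) (e y)) (fun x y hxy => hc (e x) (e y) (by simpa using hxy))
    refine ⟨e x, e y, e z, by simpa using h1, by simpa using h2, by simpa using h3, h4, h5⟩
  have hfree : ∀ f : Fin 5 → Fin n, Function.Injective f →
      ¬ ∀ j, ((G' ω).comap e.symm).Adj (f (L5 j).1) (f (L5 j).2) := by
    intro f hf h
    exact G'_free ω (fun i => e.symm (f i)) (e.symm.injective.comp hf) (fun j => by
      simpa using h j)
  refine ⟨clean ((G' ω).comap e.symm), clean_cliqueFree _, ?_, ?_⟩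
  · intro c hc
    exact clean_arrow hfree harr c hc
  · intro f hf h
    exact hfree f hf (fun j => (h j).1)

theorem final : ∃ n : ℕ, n ≤ 10 ^ 15320 ∧ ∃ G : SimpleGraph (Fin n),
    G.CliqueFree 4 ∧
      (∀ c : Fin n → Fin n → Bool, (∀ x y, G.Adj x y → c x y = c y x) →
      ∃ x y z, G.Adj x y ∧ G.Adj y z ∧ G.Adj x z ∧ c x y = c y z ∧ c y z = c x z) ∧
    ∀ f : Fin 5 → Fin n, Function.Injective f →
      ¬ ∀ j, G.Adj (f (L5 j).1) (f (L5 j).2) := by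
  obtain ⟨D, hD⟩ : ∃ D : ℕ, D = 11700 := ⟨_, rfl⟩
  have hsmall : (25155 / (63 / 5) ^ 4 : ℝ) ^ D < 1 / 4000000000 := by rw [hD]; exact pow_small
  obtain ⟨P, hP, hP1, hineq⟩ := core D (10 ^ D * 10 ^ 19) (1 / (10 ^ 8 * 11 ^ D))
    (by positivity) (eps1 D) (eps2 D) (eps3 D) (eps4 D) (epsb D) hsmall
  obtain ⟨n, hn⟩ : ∃ n : ℕ, n = 2 ^ D * (10 ^ D * 10 ^ 19) := ⟨_, rfl⟩
  obtain ⟨G, h1, h2, h3⟩ := graph_of_params D (10 ^ D * 10 ^ 19) P hP hP1 hineq n hn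
  refine ⟨n, ?_, G, h1, h2, h3⟩
  have e1 : 2 ^ D ≤ 10 ^ 3600 := by
    calc 2 ^ D = (2 ^ 13) ^ 900 := by rw [← pow_mul, hD]
      _ ≤ (10 ^ 4) ^ 900 := Nat.pow_le_pow_left (by norm_num) 900
      _ = 10 ^ 3600 := by rw [← pow_mul]
  calc n = 2 ^ D * (10 ^ D * 10 ^ 19) := hn
    _ ≤ 10 ^ 3600 * (10 ^ D * 10 ^ 19) := Nat.mul_le_mul_right _ e1
    _ = 10 ^ 15319 := by rw [← pow_add, ← pow_add, hD]
    _ ≤ 10 ^ 15320 := Nat.pow_le_pow_right (by norm_num) (by norm_num)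

end KS6_98.Folk
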